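import Pool.Agent.Y773.HG.Ent
import Pool.Agent.Y772.HG.Tot
import Pool.Agent.Helper923.PNT
import Pool.Agent.N912.RC.Stm

set_option autoImplicit false

/-!
Project RC (helper912), part RC1 (helper864): the prime number theorem for the ray class characters
of a number field.
-/

namespace Pool.Agent.N864.RC

open NumberField Complex Filter Topology Ideal
open scoped ComplexOrder
open ArithmeticFunction (vonMangoldt)
open Pool.Agent.Y773 (LI VM cc StDirK)
open Pool.Agent.Y773.G (IsModChar StEnt t_ent)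
open Pool.Agent.Y772.G (mod_ab mc_le mc_norm nv_tot LI_pole)
open Pool.Agent.Y772.NV (ab ab_one ab_zero cc_re cc_im landau)
open Pool.Agent.Y772.DK (t_dirK VM_nonneg)

variable {K : Type} [Field K] [NumberField K]

/-- the coefficients of the logarithmic derivative -/
noncomputable def bk (η : Ideal (𝓞 K) →*₀ ℂ) (n : ℕ) : ℂ := ((vonMangoldt n : ℝ) : ℂ) * cc η n

lemma bk_norm_le {η : Ideal (𝓞 K) →*₀ ℂ} (hη : ∀ 𝔞, ‖η 𝔞‖ ≤ 1) (n : ℕ) :
    ‖bk η n‖ ≤ Module.finrank ℚ K * vonMangoldt n := by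
  obtain ⟨A, -, hDK⟩ := t_dirK K
  have h1 := (hDK η hη).2.2.2.2.2.2.1 n
  unfold bk
  rw [norm_mul, Complex.norm_real, Real.norm_of_nonneg ArithmeticFunction.vonMangoldt_nonneg,
    mul_comm]
  exact mul_le_mul_of_nonneg_right h1 ArithmeticFunction.vonMangoldt_nonneg

lemma bk_summable {η : Ideal (𝓞 K) →*₀ ℂ} (hη : ∀ 𝔞, ‖η 𝔞‖ ≤ 1) {s : ℂ} (hs : 1 < s.re) :
    LSeriesSummable (bk η) s := by
  have h1 := (ArithmeticFunction.LSeriesSummable_vonMangoldt (s := s) hs).norm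
  refine Summable.of_norm_bounded (h1.mul_left (Module.finrank ℚ K : ℝ)) fun n => ?_
  rw [LSeries.norm_term_eq, LSeries.norm_term_eq]
  rcases eq_or_ne n 0 with rfl | hn
  · simp
  · rw [if_neg hn, if_neg hn, ← mul_div_assoc]
    refine div_le_div_of_nonneg_right ?_ (Real.rpow_nonneg (Nat.cast_nonneg n) _)
    rw [Complex.norm_real, Real.norm_of_nonneg ArithmeticFunction.vonMangoldt_nonneg]
    exact bk_norm_le hη n

lemma bk_ld {η : Ideal (𝓞 K) →*₀ ℂ} (hη : ∀ 𝔞, ‖η 𝔞‖ ≤ 1) {s : ℂ} (hs : 1 < s.re) :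
    LSeries (bk η) s = -(deriv (LI η) s / LI η s) := by
  obtain ⟨A, -, hDK⟩ := t_dirK K
  rw [(hDK η hη).2.2.2.1 s hs, neg_neg]
  unfold LSeries
  refine tsum_congr fun n => ?_
  rcases eq_or_ne n 0 with rfl | hn
  · simp
  · rw [LSeries.term_of_ne_zero hn, Complex.cpow_neg, div_eq_mul_inv]
    simp only [bk]
    ring

lemma ab_eq {𝔪 : Ideal (𝓞 K)} {e : InfinitePlace K → ℕ} {η : Ideal (𝓞 K) →*₀ ℂ}
    (h : IsModChar 𝔪 e η) (ht : ∀ 𝔞, IsCoprime 𝔞 𝔪 → η 𝔞 = 1) : ab η = η := by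
  ext 𝔞
  by_cases h0 : IsCoprime 𝔞 𝔪
  · rw [ab_one (mc_norm h h0), ht 𝔞 h0]
  · have h1 : η 𝔞 = 0 := by
      by_contra h1
      exact h0 ((h.supp 𝔞).1 h1)
    rw [ab_zero h1, h1]

/-- the trivial character: the pole at `1` -/
lemma res {𝔪 : Ideal (𝓞 K)} {e : InfinitePlace K → ℕ} {η : Ideal (𝓞 K) →*₀ ℂ}
    (h : IsModChar 𝔪 e η) (ht : ∀ 𝔞, IsCoprime 𝔞 𝔪 → η 𝔞 = 1) :
    ∃ F : ℂ → ℂ, Differentiable ℂ F ∧ (∀ s : ℂ, 1 < s.re → F s = (s - 1) * LI η s) ∧ F 1 ≠ 0 := by
  obtain ⟨F, hF, hFs, hF2⟩ := LI_pole (mod_ab h)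
  rw [ab_eq h ht] at hFs
  have hF2' := hF2 fun _ => rfl
  refine ⟨F, hF, hFs, fun hF1 => ?_⟩
  have hη := mc_le h
  obtain ⟨A, -, hDK⟩ := t_dirK K
  obtain ⟨-, hd, hn, -, -, -, -, -, -, -, -⟩ := hDK η hη
  set f : ℂ → ℂ := dslope F 1 with hf
  have hdf : Differentiable ℂ f := by
    rw [← differentiableOn_univ, hf, Complex.differentiableOn_dslope univ_mem]
    exact hF.differentiableOn
  have hfs : ∀ s : ℂ, 1 < s.re → f s = LI η s := by
    intro s hs
    have hs1 : s ≠ 1 := by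
      rintro rfl
      simp at hs
    have hs2 : s - 1 ≠ 0 := sub_ne_zero.2 hs1
    rw [hf, dslope_of_ne _ hs1, slope_def_field, hF1, sub_zero, hFs s hs]
    field_simp
  have ha0 : 0 ≤ bk η := by
    intro n
    have him : ∀ 𝔞, (η 𝔞).im = 0 ∧ 0 ≤ (η 𝔞).re := by
      intro 𝔞
      by_cases h0 : IsCoprime 𝔞 𝔪
      · rw [ht 𝔞 h0]; simp
      · have h1 : η 𝔞 = 0 := by
          by_contra h1
          exact h0 ((h.supp 𝔞).1 h1)
        rw [h1]; simp
    have hz : bk η n = ((vonMangoldt n * (cc η n).re : ℝ) : ℂ) := by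
      unfold bk
      apply Complex.ext
      · rw [Complex.re_ofReal_mul, ofReal_re]
      · rw [Complex.im_ofReal_mul, ofReal_im, cc_im, Finset.sum_eq_zero, zero_div, mul_zero]
        intro 𝔞 _
        rw [(him 𝔞).1, mul_zero]
    have h0 : (0 : ℕ → ℂ) n = 0 := rfl
    rw [h0, hz, Complex.zero_le_real]
    refine mul_nonneg ArithmeticFunction.vonMangoldt_nonneg ?_
    rw [cc_re]
    refine div_nonneg (Finset.sum_nonneg fun 𝔞 _ => ?_) ArithmeticFunction.vonMangoldt_nonneg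
    exact mul_nonneg (VM_nonneg 𝔞) (him 𝔞).2
  have habs : LSeries.abscissaOfAbsConv (bk η) < (2 : ℝ) := by
    have h1 : LSeries.abscissaOfAbsConv (bk η) ≤ ((3 / 2 : ℝ) : EReal) := by
      have := (bk_summable hη (s := ((3 / 2 : ℝ) : ℂ))
        (by rw [ofReal_re]; norm_num)).abscissaOfAbsConv_le
      simpa using this
    refine h1.trans_lt ?_
    exact_mod_cast (by norm_num : (3 / 2 : ℝ) < 2)
  have h2re : (1 : ℝ) < ((2 : ℝ) : ℂ).re := by rw [ofReal_re]; norm_num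
  have hop : IsOpen {s : ℂ | 1 < s.re} := isOpen_lt continuous_const continuous_re
  have hkey := landau hdf (c := 2) (D := LSeries (bk η)) ?_ ?_ ?_
    (fun k => LSeries.iteratedDeriv_alternating ha0 habs k) (y := -2) (by norm_num)
  · apply hkey
    have h3 : (((-2 : ℝ)) : ℂ) ≠ 1 := by norm_num
    rw [hf, dslope_of_ne _ h3, slope_def_field, hF1]
    push_cast
    rw [hF2', sub_zero, zero_div]
  · exact LSeries_analyticOnNhd (bk η) (2 : ℝ) (by simpa using habs)
  · rw [hfs _ h2re]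
    exact hn _ h2re
  · filter_upwards [hop.mem_nhds h2re] with z hz
    have hz' : 1 < z.re := hz
    have heq : f =ᶠ[𝓝 z] LI η := by
      filter_upwards [hop.mem_nhds hz'] with w hw
      exact hfs w hw
    rw [heq.deriv_eq, hfs z hz', bk_ld hη hz', neg_mul, neg_neg, div_mul_cancel₀ _ (hn z hz')]

/-- continuation of the logarithmic derivative to the line `Re s = 1` -/
lemma ld_cont {𝔪 : Ideal (𝓞 K)} {e : InfinitePlace K → ℕ} {η : Ideal (𝓞 K) →*₀ ℂ}
    (h : IsModChar 𝔪 e η) :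
    ∃ (δ : ℝ) (G : ℂ → ℂ), (δ = 0 ∨ δ = 1) ∧ ((∃ 𝔞, IsCoprime 𝔞 𝔪 ∧ η 𝔞 ≠ 1) → δ = 0) ∧
      ((∀ 𝔞, IsCoprime 𝔞 𝔪 → η 𝔞 = 1) → δ = 1) ∧ ContinuousOn G {s | 1 ≤ s.re} ∧
      ∀ s : ℂ, 1 < s.re → G s = LSeries (bk η) s - δ / (s - 1) := by
  have hη := mc_le h
  obtain ⟨A, -, hDK⟩ := t_dirK K
  obtain ⟨-, hd, hn, -, -, -, -, -, -, -, -⟩ := hDK η hη
  have hop : IsOpen {s : ℂ | 1 < s.re} := isOpen_lt continuous_const continuous_re
  have hre : ∀ s : ℂ, 1 ≤ s.re → s.re = 1 ∨ 1 < s.re := fun s hs => by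
    rcases hs.eq_or_lt with h | h
    · exact Or.inl h.symm
    · exact Or.inr h
  by_cases hnt : ∃ 𝔞, IsCoprime 𝔞 𝔪 ∧ η 𝔞 ≠ 1
  · obtain ⟨F, hF, hFs⟩ := t_ent K 𝔪 η e h hnt
    refine ⟨0, fun s => -(deriv F s / F s), Or.inl rfl, fun _ => rfl, fun h1 => ?_, ?_, ?_⟩
    · obtain ⟨𝔞, h2, h3⟩ := hnt
      exact absurd (h1 𝔞 h2) h3
    · refine ContinuousOn.neg (ContinuousOn.div ?_ hF.continuous.continuousOn fun s hs => ?_)
      · exact (hF.contDiff (n := 1)).continuous_deriv le_rfl |>.continuousOn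
      · rcases hre s hs with h1 | h1
        · exact nv_tot t_ent h h1 (hF.analyticAt s) (Eventually.of_forall hFs)
        · rw [hFs s h1]
          exact hn s h1
    · intro s hs
      have heq : F =ᶠ[𝓝 s] LI η := by
        filter_upwards [hop.mem_nhds hs] with w hw
        exact hFs w hw
      rw [bk_ld hη hs, Complex.ofReal_zero, zero_div, sub_zero]
      simp only
      rw [heq.deriv_eq, hFs s hs]
  · have ht : ∀ 𝔞, IsCoprime 𝔞 𝔪 → η 𝔞 = 1 := by
      intro 𝔞 h1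
      by_contra h2
      exact hnt ⟨𝔞, h1, h2⟩
    obtain ⟨F, hF, hFs, hF1⟩ := res h ht
    have hs0 : ∀ s : ℂ, 1 < s.re → s - 1 ≠ 0 := by
      intro s hs
      refine sub_ne_zero_of_ne ?_
      rintro rfl
      simp at hs
    refine ⟨1, fun s => -(deriv F s / F s), Or.inr rfl, fun h1 => absurd h1 hnt, fun _ => rfl, ?_, ?_⟩
    · refine ContinuousOn.neg (ContinuousOn.div ?_ hF.continuous.continuousOn fun s hs => ?_)
      · exact (hF.contDiff (n := 1)).continuous_deriv le_rfl |>.continuousOn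
      · rcases hre s hs with h1 | h1
        · by_cases h2 : s = 1
          · rw [h2]; exact hF1
          · have h3 : s - 1 ≠ 0 := sub_ne_zero_of_ne h2
            have h4 := nv_tot t_ent h (F := fun z => F z / (z - 1)) h1
              ((hF.analyticAt s).div (analyticAt_id.sub analyticAt_const) h3)
              (Eventually.of_forall fun z hz => by
                rw [hFs z hz, mul_div_cancel_left₀ _ (hs0 z hz)])
            intro h5
            apply h4
            simp only [h5, zero_div]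
        · rw [hFs s h1]
          exact mul_ne_zero (hs0 s h1) (hn s h1)
    · intro s hs
      have h1 := hs0 s hs
      have h2 := hn s hs
      have heq : F =ᶠ[𝓝 s] fun z => (z - 1) * LI η z := by
        filter_upwards [hop.mem_nhds hs] with w hw
        exact hFs w hw
      have h3 : deriv F s = 1 * LI η s + (s - 1) * deriv (LI η) s := by
        rw [heq.deriv_eq]
        exact (((hasDerivAt_id s).sub_const 1).mul (hd s hs).hasDerivAt).deriv
      rw [bk_ld hη hs]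
      simp only
      rw [h3, hFs s hs, Complex.ofReal_one]
      field_simp
      ring

lemma LS_conj (f : ℕ → ℂ) (s : ℂ) : LSeries (fun n => (starRingEnd ℂ) (f n)) s =
    (starRingEnd ℂ) (LSeries f ((starRingEnd ℂ) s)) := by
  unfold LSeries
  have h1 : (starRingEnd ℂ) (∑' n : ℕ, LSeries.term f ((starRingEnd ℂ) s) n) =
      ∑' n : ℕ, (starRingEnd ℂ) (LSeries.term f ((starRingEnd ℂ) s) n) := by
    rw [Complex.conj_tsum]
  rw [h1]
  refine tsum_congr fun n => ?_
  rcases eq_or_ne n 0 with rfl | hn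
  · simp
  · rw [LSeries.term_of_ne_zero hn, LSeries.term_of_ne_zero hn, map_div₀]
    congr 1
    have h2 : ((n : ℂ)).arg ≠ Real.pi := by
      rw [Complex.natCast_arg]
      exact Real.pi_ne_zero.symm
    rw [Complex.cpow_conj _ _ h2, Complex.conj_natCast, Complex.conj_conj]

lemma summ_conj (f : ℕ → ℂ) (s : ℂ) (h : LSeriesSummable f s) :
    LSeriesSummable (fun n => (starRingEnd ℂ) (f n)) s := by
  refine Summable.of_norm_bounded h.norm fun n => ?_
  rcases eq_or_ne n 0 with rfl | hn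
  · simp
  · rw [LSeries.term_of_ne_zero hn, LSeries.term_of_ne_zero hn, norm_div, norm_div,
      Complex.norm_conj]

lemma mangoldt_cont : ∃ G : ℂ → ℂ, ContinuousOn G {s | 1 ≤ s.re} ∧
    ∀ s : ℂ, 1 < s.re → G s = LSeries (fun n => ((vonMangoldt n : ℝ) : ℂ)) s - 1 / (s - 1) := by
  refine ⟨ArithmeticFunction.vonMangoldt.LFunctionResidueClassAux (1 : ZMod 1),
    ArithmeticFunction.vonMangoldt.continuousOn_LFunctionResidueClassAux (1 : ZMod 1),
    fun s hs => ?_⟩
  rw [ArithmeticFunction.vonMangoldt.eqOn_LFunctionResidueClassAux isUnit_one hs]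
  have h1 : (fun n => ((ArithmeticFunction.vonMangoldt.residueClass (1 : ZMod 1) n : ℝ) : ℂ)) =
      fun n => ((vonMangoldt n : ℝ) : ℂ) := by
    funext n
    unfold ArithmeticFunction.vonMangoldt.residueClass
    rw [Set.indicator_of_mem]
    exact Subsingleton.elim _ _
  simp only [h1, Nat.totient_one, Nat.cast_one, inv_one]

lemma taub {𝔪 : Ideal (𝓞 K)} {e : InfinitePlace K → ℕ} {η : Ideal (𝓞 K) →*₀ ℂ}
    (h : IsModChar 𝔪 e η) {δ : ℝ} {G₁ : ℂ → ℂ} (hG₁ : ContinuousOn G₁ {s | 1 ≤ s.re})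
    (hG₁s : ∀ s : ℂ, 1 < s.re → G₁ s = LSeries (bk η) s - δ / (s - 1)) (ζ : ℂ) (hζ : ‖ζ‖ ≤ 1) :
    Tendsto (fun x : ℝ => (∑ k ∈ Finset.Icc 1 ⌊x⌋₊,
      (Module.finrank ℚ K * vonMangoldt k + (ζ * bk η k).re)) / x) atTop
        (𝓝 (Module.finrank ℚ K + ζ.re * δ)) := by
  obtain ⟨G, hG, hGs⟩ := mangoldt_cont
  have hη := mc_le h
  set d : ℝ := (Module.finrank ℚ K : ℝ) with hd
  have hd0 : 0 ≤ d := Nat.cast_nonneg _
  have hre : ∀ k : ℕ, |(ζ * bk η k).re| ≤ d * vonMangoldt k := by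
    intro k
    refine (Complex.abs_re_le_norm _).trans ?_
    rw [norm_mul]
    calc ‖ζ‖ * ‖bk η k‖ ≤ 1 * (d * vonMangoldt k) :=
          mul_le_mul hζ (bk_norm_le hη k) (norm_nonneg _) zero_le_one
      _ = d * vonMangoldt k := one_mul _
  refine Pool.Agent.Helper923.PNT.wiener_ikehara
    (fun k => d * vonMangoldt k + (ζ * bk η k).re) ?_ (2 * d * (Real.log 4 + 4))
    (d + ζ.re * δ) ?_
    (fun s => d * G s + (ζ / 2 * G₁ s +
      (starRingEnd ℂ) ζ / 2 * (starRingEnd ℂ) (G₁ ((starRingEnd ℂ) s)))) ?_ ?_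
  · intro k
    have := abs_le.1 (hre k)
    linarith [this.1]
  · intro n
    have h1 : ∑ k ∈ Finset.Icc 1 n, vonMangoldt k ≤ (Real.log 4 + 4) * n := by
      have h2 : ∑ k ∈ Finset.Icc 1 n, vonMangoldt k ≤ Chebyshev.psi n := by
        unfold Chebyshev.psi
        rw [Nat.floor_natCast]
        exact le_rfl
      exact h2.trans (Chebyshev.psi_le_const_mul_self (Nat.cast_nonneg n))
    calc ∑ k ∈ Finset.Icc 1 n, (d * vonMangoldt k + (ζ * bk η k).re)
        ≤ ∑ k ∈ Finset.Icc 1 n, (2 * d) * vonMangoldt k :=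
          Finset.sum_le_sum fun k _ => by
            have := (le_abs_self _).trans (hre k)
            linarith
      _ = 2 * d * ∑ k ∈ Finset.Icc 1 n, vonMangoldt k := by rw [Finset.mul_sum]
      _ ≤ 2 * d * ((Real.log 4 + 4) * n) := mul_le_mul_of_nonneg_left h1 (by positivity)
      _ = 2 * d * (Real.log 4 + 4) * n := by ring
  · refine (continuousOn_const.mul hG).add ((continuousOn_const.mul hG₁).add
      (continuousOn_const.mul ?_))
    refine Complex.continuous_conj.comp_continuousOn (hG₁.comp Complex.continuous_conj.continuousOn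
      fun s hs => ?_)
    simpa using hs
  · intro s hs
    have hs' : 1 < ((starRingEnd ℂ) s).re := by simpa using hs
    have e1 : (fun n : ℕ => ((d * vonMangoldt n + (ζ * bk η n).re : ℝ) : ℂ)) =
        ((d : ℂ) • (fun n => ((vonMangoldt n : ℝ) : ℂ))) + ((ζ / 2) • bk η +
          ((starRingEnd ℂ) ζ / 2) • (fun n => (starRingEnd ℂ) (bk η n))) := by
      funext n
      simp only [Pi.add_apply, Pi.smul_apply, smul_eq_mul]
      push_cast
      rw [Complex.re_eq_add_conj]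
      simp only [map_mul]
      ring
    have s0 := ArithmeticFunction.LSeriesSummable_vonMangoldt (s := s) hs
    have s1 := bk_summable hη hs
    have s2 := summ_conj _ _ s1
    rw [e1, LSeries_add (s0.smul _) ((s1.smul _).add (s2.smul _)),
      LSeries_add (s1.smul _) (s2.smul _), LSeries_smul, LSeries_smul, LSeries_smul, hGs s hs,
      hG₁s s hs, hG₁s _ hs', LS_conj]
    simp only [map_sub, map_div₀, map_one, Complex.conj_conj, Complex.conj_ofReal]
    have h1 : s - 1 ≠ 0 := by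
      refine sub_ne_zero_of_ne ?_
      rintro rfl
      simp at hs
    push_cast
    rw [Complex.re_eq_add_conj]
    field_simp
    ring

/-- **RC1**: the prime number theorem for the ray class characters of a number field -/
theorem rc1 : Pool.Agent.N912.RC.S_RC1 := by
  intro K _ _ 𝔪 e η h
  obtain ⟨δ, G, hδ, hδ0, hδ1, hG, hGs⟩ := ld_cont h
  refine ⟨δ, hδ, hδ0, hδ1, ?_⟩
  have hA := fun ζ hζ => taub h hG hGs ζ hζ
  have h0 := hA 0 (by simp)
  have key : ∀ ζ : ℂ, ‖ζ‖ ≤ 1 → Tendsto (fun x : ℝ => (∑ k ∈ Finset.Icc 1 ⌊x⌋₊,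
      (ζ * bk η k).re) / x) atTop (𝓝 (ζ.re * δ)) := by
    intro ζ hζ
    have h1 := (hA ζ hζ).sub h0
    have e2 : (Module.finrank ℚ K : ℝ) + ζ.re * δ - (Module.finrank ℚ K + (0 : ℂ).re * δ) =
        ζ.re * δ := by simp
    rw [e2] at h1
    refine h1.congr fun x => ?_
    rw [← sub_div, ← Finset.sum_sub_distrib]
    congr 1
    refine Finset.sum_congr rfl fun k _ => ?_
    simp
  have h1 := key 1 (by simp)
  have h2 := key (-I) (by simp)
  rw [Complex.one_re, one_mul] at h1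
  have e3 : (-I).re * δ = 0 := by simp
  rw [e3] at h2
  have h3 := (Complex.continuous_ofReal.tendsto _).comp h1
  have h4 := ((Complex.continuous_ofReal.tendsto _).comp h2).mul_const I
  have h5 := h3.add h4
  rw [Complex.ofReal_zero, zero_mul, add_zero] at h5
  refine h5.congr fun x => ?_
  simp only [Function.comp]
  have h6 : ∑ n ∈ Finset.Icc 1 ⌊x⌋₊, ((vonMangoldt n : ℝ) : ℂ) * cc η n =
      ∑ k ∈ Finset.Icc 1 ⌊x⌋₊, bk η k := rfl
  rw [h6]
  have h7 : ∑ k ∈ Finset.Icc 1 ⌊x⌋₊, ((1 : ℂ) * bk η k).re =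
      (∑ k ∈ Finset.Icc 1 ⌊x⌋₊, bk η k).re := by
    rw [Complex.re_sum]
    exact Finset.sum_congr rfl fun k _ => by rw [one_mul]
  have h8 : ∑ k ∈ Finset.Icc 1 ⌊x⌋₊, (-I * bk η k).re =
      (∑ k ∈ Finset.Icc 1 ⌊x⌋₊, bk η k).im := by
    rw [Complex.im_sum]
    exact Finset.sum_congr rfl fun k _ => by rw [Complex.mul_re]; simp
  rw [h7, h8]
  set z := ∑ k ∈ Finset.Icc 1 ⌊x⌋₊, bk η k
  have h9 : z = (z.re : ℂ) + (z.im : ℂ) * I := (Complex.re_add_im z).symm
  conv_rhs => rw [h9]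
  push_cast
  ring

end Pool.Agent.N864.RC
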