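import Pool.Agent.N864.RC.Pnt
import Pool.Agent.W318.EX.Lmx
import Pool.Agent.W973.EX.Amv
import Pool.Agent.W583.EX.Amv1
import Pool.Agent.Helper932.IdealCount

set_option autoImplicit false

/-!
Project RC (helper912), part RC2 (helper864): the mean value of `b^Ω(N 𝔞)` times a ray class
character of a number field is zero.
-/

namespace Pool.Agent.N864.RC

open NumberField Complex Filter Topology Ideal
open ArithmeticFunction (vonMangoldt cardFactors)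
open Pool.Agent.Y773 (LI VM cc)
open Pool.Agent.Y773.G (IsModChar)
open Pool.Agent.Y772.G (mc_le)
open Pool.Agent.Y772.DK (NN NN_finite cc_mul sum_VM finite_dvd)
open Pool.Agent.N912.RC (IX S_RC1 S_RC2)

/-- the ideals of norm `n` -/
noncomputable def Sn (K : Type) [Field K] [NumberField K] (n : ℕ) : Finset (Ideal (𝓞 K)) :=
  (NN_finite (K := K) n).toFinset

variable {K : Type} [Field K] [NumberField K]

lemma mem_Sn {n : ℕ} {𝔞 : Ideal (𝓞 K)} : 𝔞 ∈ Sn K n ↔ absNorm 𝔞 = n := by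
  unfold Sn
  rw [Set.Finite.mem_toFinset]
  rfl

/-- the coefficients of the Dirichlet series -/
noncomputable def an (η : Ideal (𝓞 K) →*₀ ℂ) (n : ℕ) : ℂ := ∑ 𝔞 ∈ Sn K n, η 𝔞

lemma bk_eq (η : Ideal (𝓞 K) →*₀ ℂ) (n : ℕ) :
    bk η n = ∑ 𝔞 ∈ Sn K n, (VM 𝔞 : ℂ) * η 𝔞 := by
  unfold bk
  rw [mul_comm, cc_mul, finsum_mem_eq_finite_toFinset_sum _ (NN_finite n)]
  rfl

open scoped Classical in
lemma Sn_mul (η : Ideal (𝓞 K) →*₀ ℂ) {n : ℕ} (hn : n ≠ 0) {𝔡 : Ideal (𝓞 K)}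
    (hd : absNorm 𝔡 ∣ n) :
    ∑ 𝔞 ∈ (Sn K n).filter (fun 𝔞 => 𝔡 ∣ 𝔞), η 𝔞 = η 𝔡 * an η (n / absNorm 𝔡) := by
  have hN : absNorm 𝔡 ≠ 0 := by
    intro h
    rw [h, zero_dvd_iff] at hd
    exact hn hd
  have hd0 : 𝔡 ≠ 0 := by
    rintro rfl
    exact hN (by rw [Ideal.zero_eq_bot, absNorm_bot])
  have himg : (Sn K n).filter (fun 𝔞 => 𝔡 ∣ 𝔞) =
      (Sn K (n / absNorm 𝔡)).image (fun 𝔠 => 𝔡 * 𝔠) := by
    ext 𝔞
    simp only [Finset.mem_filter, Finset.mem_image, mem_Sn]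
    constructor
    · rintro ⟨h1, 𝔠, rfl⟩
      refine ⟨𝔠, ?_, rfl⟩
      rw [← h1, map_mul, Nat.mul_div_cancel_left _ (Nat.pos_of_ne_zero hN)]
    · rintro ⟨𝔠, h1, rfl⟩
      refine ⟨?_, dvd_mul_right _ _⟩
      rw [map_mul, h1, Nat.mul_div_cancel' hd]
  rw [himg, Finset.sum_image (fun a _ b _ h => mul_left_cancel₀ hd0 h)]
  unfold an
  rw [Finset.mul_sum]
  exact Finset.sum_congr rfl fun 𝔠 _ => map_mul η 𝔡 𝔠

open scoped Classical in
/-- the convolution identity -/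
lemma conv (η : Ideal (𝓞 K) →*₀ ℂ) {n : ℕ} (hn : n ≠ 0) :
    an η n * (Real.log n : ℂ) = ∑ d ∈ n.divisors, bk η d * an η (n / d) := by
  set U : Finset (Ideal (𝓞 K)) := n.divisors.biUnion (Sn K) with hU
  have hlog : ∀ 𝔞 ∈ Sn K n, (Real.log n : ℂ) = ∑ 𝔡 ∈ U.filter (fun 𝔡 => 𝔡 ∣ 𝔞), (VM 𝔡 : ℂ) := by
    intro 𝔞 h𝔞
    rw [mem_Sn] at h𝔞
    have h0 : 𝔞 ≠ 0 := by
      rintro rfl
      exact hn (by rw [← h𝔞, Ideal.zero_eq_bot, absNorm_bot])
    have h1 := sum_VM 𝔞 h0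
    rw [h𝔞] at h1
    have h2 : {𝔡 : Ideal (𝓞 K) | 𝔡 ∣ 𝔞} = ↑(U.filter (fun 𝔡 => 𝔡 ∣ 𝔞)) := by
      ext 𝔡
      simp only [Set.mem_ofPred_eq, Finset.coe_filter, hU, Finset.mem_biUnion, mem_Sn,
        Nat.mem_divisors]
      constructor
      · intro h3
        refine ⟨⟨absNorm 𝔡, ⟨?_, hn⟩, rfl⟩, h3⟩
        rw [← h𝔞]
        exact map_dvd absNorm h3
      · rintro ⟨-, h3⟩
        exact h3
    rw [← h1, h2, finsum_mem_coe_finset, Complex.ofReal_sum]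
  have e1 : an η n * (Real.log n : ℂ) =
      ∑ 𝔞 ∈ Sn K n, ∑ 𝔡 ∈ U, if 𝔡 ∣ 𝔞 then η 𝔞 * (VM 𝔡 : ℂ) else 0 := by
    unfold an
    rw [Finset.sum_mul]
    refine Finset.sum_congr rfl fun 𝔞 h𝔞 => ?_
    rw [hlog 𝔞 h𝔞, Finset.mul_sum, Finset.sum_filter]
  have e2 : ∀ 𝔡 ∈ U, (∑ 𝔞 ∈ Sn K n, if 𝔡 ∣ 𝔞 then η 𝔞 * (VM 𝔡 : ℂ) else 0) =
      (VM 𝔡 : ℂ) * η 𝔡 * an η (n / absNorm 𝔡) := by
    intro 𝔡 h𝔡
    rw [hU, Finset.mem_biUnion] at h𝔡
    obtain ⟨d, hd, h2⟩ := h𝔡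
    rw [mem_Sn] at h2
    have h3 : absNorm 𝔡 ∣ n := by
      rw [h2]
      exact (Nat.mem_divisors.1 hd).1
    rw [← Finset.sum_filter, ← Finset.sum_mul, Sn_mul η hn h3]
    ring
  rw [e1, Finset.sum_comm, Finset.sum_congr rfl e2, hU, Finset.sum_biUnion]
  · refine Finset.sum_congr rfl fun d _ => ?_
    rw [bk_eq, Finset.sum_mul]
    refine Finset.sum_congr rfl fun 𝔡 h𝔡 => ?_
    rw [mem_Sn] at h𝔡
    rw [h𝔡]
  · intro a _ b _ hab
    rw [Function.onFun, Finset.disjoint_left]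
    intro 𝔞 h1 h2
    rw [mem_Sn] at h1 h2
    exact hab (h1.symm.trans h2)

variable (K) in
lemma count : ∃ C : ℝ, 0 ≤ C ∧ ∀ n : ℕ, ∑ k ∈ Finset.Icc 1 n, ((Sn K k).card : ℝ) ≤ C * n := by
  obtain ⟨κ, -, hκ⟩ := Pool.Agent.Helper932.exists_tendsto K
  obtain ⟨C, hC⟩ := hκ.bddAbove_range
  refine ⟨max C 0, le_max_right _ _, fun n => ?_⟩
  have h1 : ((Pool.Agent.Helper932.idealsLe K n).card : ℝ) =
      ∑ k ∈ Finset.Icc 1 n, ((Sn K k).card : ℝ) := by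
    classical
    have hm : ∀ 𝔞 ∈ Pool.Agent.Helper932.idealsLe K n, absNorm 𝔞 ∈ Finset.Icc 1 n := by
      intro 𝔞 h
      rw [Pool.Agent.Helper932.mem_idealsLe] at h
      rw [Finset.mem_Icc]
      exact ⟨Nat.pos_of_ne_zero fun h0 => h.1 (absNorm_eq_zero_iff.1 h0), h.2⟩
    rw [Finset.card_eq_sum_card_fiberwise hm]
    push_cast
    refine Finset.sum_congr rfl fun k hk => ?_
    rw [Finset.mem_Icc] at hk
    congr 2
    ext 𝔞
    rw [Finset.mem_filter, mem_Sn, Pool.Agent.Helper932.mem_idealsLe]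
    constructor
    · rintro ⟨-, h⟩
      exact h
    · intro h
      refine ⟨⟨?_, by omega⟩, h⟩
      rintro rfl
      rw [absNorm_bot] at h
      omega
  rw [← h1]
  rcases Nat.eq_zero_or_pos n with rfl | hn
  · rw [h1]
    simp
  · have h2 := hC ⟨n, rfl⟩
    have hn' : (0 : ℝ) < n := by exact_mod_cast hn
    simp only at h2
    rw [div_le_iff₀ hn'] at h2
    refine h2.trans ?_
    exact mul_le_mul_of_nonneg_right (le_max_left _ _) hn'.le

theorem lim_g {b : ℂ} (hb : ‖b‖ = 1) (c : ℕ → ℂ) {D : ℝ} (_hD : 0 ≤ D) (hc : ∀ n, ‖c n‖ ≤ D)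
    (δ : ℝ) (hlim : Tendsto (fun x : ℝ => (∑ n ∈ Finset.Icc 1 ⌊x⌋₊,
      (vonMangoldt n : ℂ) * c n) / (x : ℂ)) atTop (𝓝 (δ : ℂ))) :
    Tendsto (fun x : ℝ => (∑ n ∈ Finset.Icc 1 ⌊x⌋₊,
      b ^ cardFactors n * ((vonMangoldt n : ℂ) * c n)) / (x : ℂ)) atTop (𝓝 (b * (δ : ℂ))) := by
  have hD : Tendsto (fun x : ℝ => (∑ n ∈ Finset.Icc 1 ⌊x⌋₊,
      (b ^ cardFactors n - b) * ((vonMangoldt n : ℂ) * c n)) / (x : ℂ)) atTop (𝓝 0) := by
    have h0 : Tendsto (fun x : ℝ => (2 * D) * (Chebyshev.psi x / x - Chebyshev.theta x / x)) atTop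
        (𝓝 0) := by
      have := (Pool.Agent.Helper923.PNT.psi_div_tendsto.sub
        Pool.Agent.Helper923.PNT.theta_div_tendsto).const_mul (2 * D)
      simpa using this
    refine squeeze_zero_norm' ?_ h0
    filter_upwards [eventually_gt_atTop 0] with x hx
    rw [norm_div, Complex.norm_real, Real.norm_eq_abs, abs_of_pos hx, ← sub_div, mul_div_assoc']
    refine div_le_div_of_nonneg_right ?_ hx.le
    refine (norm_sum_le _ _).trans ?_
    have hI : Finset.Icc 1 ⌊x⌋₊ = Finset.Ioc 0 ⌊x⌋₊ := by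
      ext n
      simp only [Finset.mem_Icc, Finset.mem_Ioc]
      omega
    rw [Chebyshev.psi, Chebyshev.theta, hI, Finset.sum_filter, ← Finset.sum_sub_distrib,
      Finset.mul_sum]
    refine Finset.sum_le_sum fun n _ => ?_
    by_cases hp : n.Prime
    · rw [if_pos hp, ArithmeticFunction.cardFactors_apply_prime hp,
        ArithmeticFunction.vonMangoldt_apply_prime hp]
      simp
    · rw [if_neg hp, sub_zero, norm_mul, norm_mul, Complex.norm_real, Real.norm_eq_abs,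
        abs_of_nonneg ArithmeticFunction.vonMangoldt_nonneg]
      have e1 : ‖b ^ cardFactors n - b‖ ≤ 2 := by
        refine (norm_sub_le _ _).trans ?_
        rw [norm_pow, hb, one_pow]
        norm_num
      have e2 : 0 ≤ vonMangoldt n := ArithmeticFunction.vonMangoldt_nonneg
      calc ‖b ^ cardFactors n - b‖ * (vonMangoldt n * ‖c n‖) ≤ 2 * (vonMangoldt n * D) := by
            apply mul_le_mul e1 _ (by positivity) (by norm_num)
            exact mul_le_mul_of_nonneg_left (hc n) e2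
        _ = (2 * D) * vonMangoldt n := by ring
  have h1 := (hlim.const_mul b).add hD
  rw [add_zero] at h1
  refine h1.congr fun x => ?_
  rw [mul_div_assoc', ← add_div, Finset.mul_sum, ← Finset.sum_add_distrib]
  congr 1
  refine Finset.sum_congr rfl fun n _ => ?_
  ring

/-- **RC2** -/
theorem rc2 (h : S_RC1) : S_RC2 := by
  intro K _ _ 𝔪 e η hη N b hN hbN hb1 ε hε
  have hb : ‖b‖ = 1 := Complex.norm_eq_one_of_pow_eq_one hbN (by omega)
  obtain ⟨δ, hδ, -, -, hlim⟩ := h K 𝔪 e η hη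
  have hle := mc_le hη
  obtain ⟨C, hC0, hC⟩ := count K
  set d : ℝ := (Module.finrank ℚ K : ℝ) with hd
  have hd0 : 0 ≤ d := Nat.cast_nonneg _
  have hcc : ∀ n, ‖cc η n‖ ≤ d := by
    obtain ⟨A, -, hDK⟩ := Pool.Agent.Y772.DK.t_dirK K
    exact (hDK η hle).2.2.2.2.2.2.1
  have key : Tendsto (fun x : ℝ => (∑ n ∈ Finset.Icc 1 ⌊x⌋₊, b ^ cardFactors n * an η n) / (x : ℂ))
      atTop (𝓝 0) := by
    refine Pool.Agent.W973.EX.amv Pool.Agent.W583.EX.amv1 (fun n => b ^ cardFactors n * an η n)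
      (fun n => b ^ cardFactors n * ((vonMangoldt n : ℂ) * cc η n))
      (fun n => ((Sn K n).card : ℝ)) (max C d) (b * (δ : ℂ)) ?_
    refine ⟨?_, ?_, ?_, ?_, lim_g hb (cc η) hd0 hcc δ hlim, ?_⟩
    · intro n
      rw [norm_mul, norm_pow, hb, one_pow, one_mul]
      unfold an
      refine (norm_sum_le _ _).trans ?_
      refine (Finset.sum_le_sum fun 𝔞 _ => hle 𝔞).trans ?_
      simp
    · intro n
      exact (hC n).trans (mul_le_mul_of_nonneg_right (le_max_left _ _) (Nat.cast_nonneg _))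
    · intro n
      rw [norm_mul, norm_pow, hb, one_pow, one_mul, norm_mul, Complex.norm_real, Real.norm_eq_abs,
        abs_of_nonneg ArithmeticFunction.vonMangoldt_nonneg, mul_comm]
      exact mul_le_mul_of_nonneg_right ((hcc n).trans (le_max_right _ _))
        ArithmeticFunction.vonMangoldt_nonneg
    · intro n hn
      have hn0 : n ≠ 0 := by omega
      rw [mul_assoc, conv η hn0, Finset.mul_sum]
      refine Finset.sum_congr rfl fun d hd => ?_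
      obtain ⟨hdn, _⟩ := Nat.mem_divisors.1 hd
      obtain ⟨e, rfl⟩ := hdn
      have hd0 : d ≠ 0 := fun h => hn0 (by simp [h])
      have he0 : e ≠ 0 := fun h => hn0 (by simp [h])
      rw [Nat.mul_div_cancel_left e (Nat.pos_of_ne_zero hd0),
        ArithmeticFunction.cardFactors_mul hd0 he0, pow_add]
      unfold bk
      ring
    · rcases hδ with h | h
      · rw [h]
        simp
      · rw [h]
        simpa using Pool.Agent.W318.EX.re_lt hb hb1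
  have e1 := key.eventually (Metric.ball_mem_nhds 0 hε)
  obtain ⟨X₁, hX₁⟩ := Filter.eventually_atTop.1 e1
  refine ⟨max X₁ 1, fun X hX => ?_⟩
  have hXp : 0 < X := lt_of_lt_of_le one_pos ((le_max_right _ _).trans hX)
  have h3 := hX₁ X ((le_max_left _ _).trans hX)
  rw [dist_zero_right, norm_div, Complex.norm_real, Real.norm_eq_abs, abs_of_pos hXp,
    div_lt_iff₀ hXp] at h3
  have h4 : ∑ 𝔞 ∈ IX K X, η 𝔞 * b ^ cardFactors (absNorm 𝔞) =
      ∑ n ∈ Finset.Icc 1 ⌊X⌋₊, b ^ cardFactors n * an η n := by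
    classical
    have hmem : ∀ 𝔞 : Ideal (𝓞 K), 𝔞 ∈ IX K X ↔ absNorm 𝔞 ≤ ⌊X⌋₊ ∧ 𝔞 ≠ ⊥ := by
      intro 𝔞
      unfold IX
      rw [Finset.mem_filter, Set.Finite.mem_toFinset]
      rfl
    have hm : ∀ 𝔞 ∈ IX K X, absNorm 𝔞 ∈ Finset.Icc 1 ⌊X⌋₊ := by
      intro 𝔞 h
      rw [hmem] at h
      rw [Finset.mem_Icc]
      exact ⟨Nat.pos_of_ne_zero fun h0 => h.2 (absNorm_eq_zero_iff.1 h0), h.1⟩
    rw [← Finset.sum_fiberwise_of_maps_to hm]
    refine Finset.sum_congr rfl fun n hn => ?_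
    rw [Finset.mem_Icc] at hn
    have h5 : (IX K X).filter (fun 𝔞 => absNorm 𝔞 = n) = Sn K n := by
      ext 𝔞
      rw [Finset.mem_filter, mem_Sn, hmem]
      constructor
      · rintro ⟨-, h⟩
        exact h
      · intro h
        refine ⟨⟨by omega, ?_⟩, h⟩
        rintro rfl
        rw [absNorm_bot] at h
        omega
    rw [h5]
    unfold an
    rw [Finset.mul_sum]
    refine Finset.sum_congr rfl fun 𝔞 h𝔞 => ?_
    rw [mem_Sn] at h𝔞
    rw [h𝔞, mul_comm]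
  rw [h4]
  exact h3.le

end Pool.Agent.N864.RC
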